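import Mathlib

/-!
# The transfinite diameter
-/

set_option autoImplicit false

open Filter Topology

namespace Pool.Agent.U380.GH

/-- the product of the distances of all ordered pairs of different points of `s` -/
noncomputable def dp (s : Finset ℂ) : ℝ := ∏ p ∈ s.offDiag, ‖p.1 - p.2‖

/-- the geometric mean of the mutual distances of the points of `s` -/
noncomputable def geo (s : Finset ℂ) : ℝ := dp s ^ (1 / ((s.card : ℝ) * (s.card - 1)))

/-- the `n`-th diameter of `K` -/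
noncomputable def dia (K : Set ℂ) (n : ℕ) : ℝ := sSup {d | ∃ s : Finset ℂ, ↑s ⊆ K ∧ s.card = n ∧ d = geo s}

lemma dp_nonneg (s : Finset ℂ) : 0 ≤ dp s := Finset.prod_nonneg fun _ _ => norm_nonneg _

lemma geo_nonneg (s : Finset ℂ) : 0 ≤ geo s := Real.rpow_nonneg (dp_nonneg s) _

lemma exp_pos' {n : ℕ} (hn : 2 ≤ n) : (0 : ℝ) < (n : ℝ) * (n - 1) := by
  have : (2 : ℝ) ≤ n := by exact_mod_cast hn
  apply mul_pos <;> linarith

lemma cast_exp {n : ℕ} (hn : 2 ≤ n) : (((n * (n - 1) : ℕ) : ℕ) : ℝ) = (n : ℝ) * (n - 1) := by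
  rw [Nat.cast_mul, Nat.cast_sub (by omega)]
  simp

lemma geo_le_iff {s : Finset ℂ} {n : ℕ} (hn : 2 ≤ n) (hs : s.card = n) {d : ℝ} (hd : 0 ≤ d) :
    geo s ≤ d ↔ dp s ≤ d ^ (n * (n - 1)) := by
  unfold geo
  rw [hs, one_div, Real.rpow_inv_le_iff_of_pos (dp_nonneg s) hd (exp_pos' hn), ← cast_exp hn,
    Real.rpow_natCast]

lemma le_geo_iff {s : Finset ℂ} {n : ℕ} (hn : 2 ≤ n) (hs : s.card = n) {d : ℝ} (hd : 0 ≤ d) :
    d ≤ geo s ↔ d ^ (n * (n - 1)) ≤ dp s := by
  unfold geo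
  rw [hs, one_div, Real.le_rpow_inv_iff_of_pos hd (dp_nonneg s) (exp_pos' hn), ← cast_exp hn,
    Real.rpow_natCast]

lemma card_offDiag' (s : Finset ℂ) {n : ℕ} (hs : s.card = n) : s.offDiag.card = n * (n - 1) := by
  rw [Finset.offDiag_card, hs, Nat.mul_sub, mul_one]

lemma geo_le_of_bounded {K : Set ℂ} {R : ℝ} (hR : 0 ≤ R) (hK : ∀ z ∈ K, ‖z‖ ≤ R) {n : ℕ} (hn : 2 ≤ n)
    {s : Finset ℂ} (hsK : ↑s ⊆ K) (hs : s.card = n) : geo s ≤ 2 * R := by
  rw [geo_le_iff hn hs (by positivity)]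
  unfold dp
  rw [← card_offDiag' s hs, ← Finset.prod_const]
  refine Finset.prod_le_prod (fun _ _ => norm_nonneg _) fun p hp => ?_
  rw [Finset.mem_offDiag] at hp
  have h1 := hK p.1 (hsK hp.1)
  have h2 := hK p.2 (hsK hp.2.1)
  calc ‖p.1 - p.2‖ ≤ ‖p.1‖ + ‖p.2‖ := norm_sub_le _ _
    _ ≤ 2 * R := by linarith

lemma prod_erase (s : Finset ℂ) {n : ℕ} (hs : s.card = n + 1) :
    ∏ k ∈ s, dp (s.erase k) = dp s ^ (n - 1) := by
  classical
  unfold dp
  have h1 : ∀ k ∈ s, ∏ p ∈ (s.erase k).offDiag, ‖p.1 - p.2‖ =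
      ∏ p ∈ s.offDiag, if k ≠ p.1 ∧ k ≠ p.2 then ‖p.1 - p.2‖ else 1 := by
    intro k _
    rw [← Finset.prod_filter]
    apply Finset.prod_congr _ fun _ _ => rfl
    ext p
    simp only [Finset.mem_offDiag, Finset.mem_erase, Finset.mem_filter]
    constructor
    · rintro ⟨⟨a1, a2⟩, ⟨a3, a4⟩, a5⟩
      exact ⟨⟨a2, a4, a5⟩, fun h => a1 h.symm, fun h => a3 h.symm⟩
    · rintro ⟨⟨a2, a4, a5⟩, a1, a3⟩
      exact ⟨⟨fun h => a1 h.symm, a2⟩, ⟨fun h => a3 h.symm, a4⟩, a5⟩
  rw [Finset.prod_congr rfl h1, Finset.prod_comm, ← Finset.prod_pow]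
  refine Finset.prod_congr rfl fun p hp => ?_
  rw [Finset.mem_offDiag] at hp
  rw [← Finset.prod_filter, Finset.prod_const]
  congr 1
  have h2 : s.filter (fun k => k ≠ p.1 ∧ k ≠ p.2) = (s.erase p.1).erase p.2 := by
    ext k
    simp only [Finset.mem_filter, Finset.mem_erase]
    tauto
  rw [h2, Finset.card_erase_of_mem (Finset.mem_erase.2 ⟨fun h => hp.2.2 h.symm, hp.2.1⟩),
    Finset.card_erase_of_mem hp.1, hs]
  omega

lemma exists_finset {K : Set ℂ} (hK : K.Infinite) (n : ℕ) : ∃ s : Finset ℂ, ↑s ⊆ K ∧ s.card = n :=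
  hK.exists_subset_card_eq n

lemma le_dia {K : Set ℂ} {R : ℝ} (hR : 0 ≤ R) (hK : ∀ z ∈ K, ‖z‖ ≤ R) {n : ℕ} (hn : 2 ≤ n)
    {s : Finset ℂ} (hsK : ↑s ⊆ K) (hs : s.card = n) : geo s ≤ dia K n := by
  unfold dia
  refine le_csSup ⟨2 * R, ?_⟩ ⟨s, hsK, hs, rfl⟩
  rintro d ⟨t, ht, htn, rfl⟩
  exact geo_le_of_bounded hR hK hn ht htn

lemma dia_nonneg {K : Set ℂ} {n : ℕ} : 0 ≤ dia K n := by
  apply Real.sSup_nonneg
  rintro d ⟨t, _, _, rfl⟩
  exact geo_nonneg t

lemma dia_succ_le {K : Set ℂ} {R : ℝ} (hR : 0 ≤ R) (hK : ∀ z ∈ K, ‖z‖ ≤ R) (hKi : K.Infinite) {n : ℕ}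
    (hn : 2 ≤ n) : dia K (n + 1) ≤ dia K n := by
  classical
  obtain ⟨s0, h0, h0'⟩ := exists_finset hKi (n + 1)
  refine csSup_le ⟨geo s0, s0, h0, h0', rfl⟩ ?_
  rintro d ⟨s, hsK, hs, rfl⟩
  rw [geo_le_iff (by omega) hs dia_nonneg]
  have h1 : ∀ k ∈ s, dp (s.erase k) ≤ dia K n ^ (n * (n - 1)) := by
    intro k hk
    have hc : (s.erase k).card = n := by
      rw [Finset.card_erase_of_mem hk, hs]
      rfl
    rw [← geo_le_iff hn hc dia_nonneg]
    exact le_dia hR hK hn ((Finset.coe_subset.2 (Finset.erase_subset _ _)).trans hsK) hc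
  have h2 : dp s ^ (n - 1) ≤ (dia K n ^ ((n + 1) * n)) ^ (n - 1) := by
    rw [← prod_erase s hs]
    calc ∏ k ∈ s, dp (s.erase k) ≤ ∏ _k ∈ s, dia K n ^ (n * (n - 1)) :=
          Finset.prod_le_prod (fun _ _ => dp_nonneg _) h1
      _ = (dia K n ^ ((n + 1) * n)) ^ (n - 1) := by
          rw [Finset.prod_const, hs, ← pow_mul, ← pow_mul]
          congr 1
          ring
  have h3 := (pow_le_pow_iff_left₀ (dp_nonneg s) (pow_nonneg dia_nonneg _) (by omega)).1 h2
  simpa using h3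

/-- the transfinite diameter of a bounded infinite set exists -/
theorem exists_lim {K : Set ℂ} {R : ℝ} (hR : 0 ≤ R) (hK : ∀ z ∈ K, ‖z‖ ≤ R) (hKi : K.Infinite) :
    ∃ c, Tendsto (dia K) atTop (𝓝 c) := by
  have h1 : Antitone fun n : ℕ => dia K (n + 2) :=
    antitone_nat_of_succ_le fun n => dia_succ_le hR hK hKi (by omega)
  have h2 := tendsto_atTop_ciInf h1 ⟨0, by
    rintro _ ⟨n, rfl⟩
    exact dia_nonneg⟩
  exact ⟨_, (tendsto_add_atTop_iff_nat 2).1 h2⟩

/-! ### Equally spaced points -/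

/-- `∏ |i - j|` over the ordered pairs of different numbers below `n` -/
noncomputable def An (n : ℕ) : ℝ := ∏ p ∈ (Finset.range n).offDiag, |(p.1 : ℝ) - p.2|

lemma An_succ (n : ℕ) : An (n + 1) = An n * (n.factorial : ℝ) ^ 2 := by
  classical
  unfold An
  rw [Finset.range_add_one, Finset.offDiag_insert Finset.notMem_range_self,
    Finset.prod_union, Finset.prod_union]
  · have h1 : ∏ j ∈ Finset.range n, |(n : ℝ) - j| = n.factorial := by
      rw [← Finset.prod_range_add_one_eq_factorial, Nat.cast_prod,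
        ← Finset.prod_range_reflect]
      refine Finset.prod_congr rfl fun j hj => ?_
      have hj' := Finset.mem_range.1 hj
      have h3 : ((n - 1 - j : ℕ) : ℝ) = n - (j + 1) := by
        rw [show n - 1 - j = n - (j + 1) by omega, Nat.cast_sub (by omega)]
        push_cast
        ring
      rw [h3, abs_of_pos]
      · push_cast
        ring
      · have : (0 : ℝ) ≤ j := Nat.cast_nonneg _
        linarith
    rw [Finset.prod_product, Finset.prod_singleton, Finset.prod_product_right,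
      Finset.prod_singleton]
    have h2 : ∏ j ∈ Finset.range n, |(j : ℝ) - n| = n.factorial := by
      rw [← h1]
      exact Finset.prod_congr rfl fun j _ => abs_sub_comm _ _
    simp only
    rw [h1, h2]
    ring
  · rw [Finset.disjoint_left]
    rintro ⟨a, b⟩ h1 h2
    simp only [Finset.mem_offDiag, Finset.mem_product, Finset.mem_singleton, Finset.mem_range] at h1 h2
    omega
  · rw [Finset.disjoint_left]
    rintro ⟨a, b⟩ h1 h2
    simp only [Finset.mem_union, Finset.mem_offDiag, Finset.mem_product, Finset.mem_singleton,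
      Finset.mem_range] at h1 h2
    omega

lemma An_lower (n : ℕ) (hn : 1 ≤ n) :
    Real.exp (-(3 / 2 * ((n + 1 : ℝ) * n))) * (n : ℝ) ^ ((n + 1) * n) ≤ An (n + 1) := by
  induction n, hn using Nat.le_induction with
  | base =>
    have h1 : An (1 + 1) = 1 := by
      rw [An_succ, show (1 : ℕ) = 0 + 1 from rfl, An_succ]
      simp [An]
    rw [h1]
    push_cast
    rw [one_pow, mul_one]
    apply Real.exp_le_one_iff.2
    norm_num
  | succ n hn ih =>
    have hn1 : (1 : ℝ) ≤ n := by exact_mod_cast hn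
    have hn0 : (0 : ℝ) < n := by linarith
    rw [An_succ]
    have h1 : Real.exp (-((n : ℝ) + 1)) * ((n : ℝ) + 1) ^ (n + 1) ≤ ((n + 1).factorial : ℝ) := by
      have h := Real.pow_div_factorial_le_exp ((n : ℝ) + 1) (by positivity) (n + 1)
      rw [div_le_iff₀ (by positivity)] at h
      rw [Real.exp_neg, inv_mul_le_iff₀ (Real.exp_pos _)]
      exact h
    have h2 : Real.exp (-((n : ℝ) + 1)) * ((n : ℝ) + 1) ^ ((n + 1) * n) ≤ (n : ℝ) ^ ((n + 1) * n) := by
      have h3 : ((n : ℝ) + 1) ≤ n * Real.exp (1 / n) := by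
        have h4 := Real.add_one_le_exp (1 / (n : ℝ))
        calc (n : ℝ) + 1 = n * (1 / n + 1) := by
              field_simp
              ring
          _ ≤ _ := mul_le_mul_of_nonneg_left h4 hn0.le
      have h5 : ((n : ℝ) + 1) ^ ((n + 1) * n) ≤ (n * Real.exp (1 / n)) ^ ((n + 1) * n) :=
        pow_le_pow_left₀ (by positivity) h3 _
      rw [mul_pow, ← Real.exp_nat_mul] at h5
      have h6 : (((n + 1) * n : ℕ) : ℝ) * (1 / n) = n + 1 := by
        push_cast
        field_simp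
      rw [h6] at h5
      rw [Real.exp_neg, inv_mul_le_iff₀ (Real.exp_pos _)]
      linarith
    have h7 : 0 < Real.exp (-((n : ℝ) + 1)) * ((n : ℝ) + 1) ^ (n + 1) := by positivity
    calc Real.exp (-(3 / 2 * (((n + 1 : ℕ) + 1 : ℝ) * ((n + 1 : ℕ) : ℝ)))) *
          ((n + 1 : ℕ) : ℝ) ^ ((n + 1 + 1) * (n + 1))
        = (Real.exp (-(3 / 2 * ((n + 1 : ℝ) * n))) *
            (Real.exp (-((n : ℝ) + 1)) * ((n : ℝ) + 1) ^ ((n + 1) * n))) *
            (Real.exp (-((n : ℝ) + 1)) * ((n : ℝ) + 1) ^ (n + 1)) ^ 2 := by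
          have e1 : Real.exp (-(3 / 2 * (((n + 1 : ℕ) + 1 : ℝ) * ((n + 1 : ℕ) : ℝ)))) =
              Real.exp (-(3 / 2 * ((n + 1 : ℝ) * n))) * Real.exp (-((n : ℝ) + 1)) *
                (Real.exp (-((n : ℝ) + 1)) * Real.exp (-((n : ℝ) + 1))) := by
            rw [← Real.exp_add, ← Real.exp_add, ← Real.exp_add]
            congr 1
            push_cast
            ring
          have e2 : ((n + 1 : ℕ) : ℝ) ^ ((n + 1 + 1) * (n + 1)) =
              ((n : ℝ) + 1) ^ ((n + 1) * n) * (((n : ℝ) + 1) ^ (n + 1)) ^ 2 := by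
            push_cast
            rw [← pow_mul, ← pow_add]
            congr 1
            ring
          rw [e1, e2]
          ring
      _ ≤ (Real.exp (-(3 / 2 * ((n + 1 : ℝ) * n))) * (n : ℝ) ^ ((n + 1) * n)) *
            ((n + 1).factorial : ℝ) ^ 2 := by
          apply mul_le_mul (mul_le_mul_of_nonneg_left h2 (Real.exp_pos _).le)
            (pow_le_pow_left₀ h7.le h1 2) (by positivity) (by positivity)
      _ ≤ An (n + 1) * ((n + 1).factorial : ℝ) ^ 2 :=
          mul_le_mul_of_nonneg_right ih (by positivity)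

/-- A set containing the segment `[-1, 1]` has `n`-th diameter at least `2 exp (-3/2)`. -/
theorem lower {K : Set ℂ} {R : ℝ} (hR : 0 ≤ R) (hK : ∀ z ∈ K, ‖z‖ ≤ R)
    (hseg : ∀ x : ℝ, |x| ≤ 1 → (x : ℂ) ∈ K) (n : ℕ) (hn : 2 ≤ n) :
    2 * Real.exp (-(3 / 2)) ≤ dia K n := by
  classical
  obtain ⟨m, rfl⟩ : ∃ m, n = m + 1 := ⟨n - 1, by omega⟩
  have hm : 1 ≤ m := by omega
  have hm0 : (0 : ℝ) < m := by exact_mod_cast hm
  set g : ℕ → ℂ := fun i => ((-1 + 2 * i / m : ℝ) : ℂ) with hg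
  have hgi : Function.Injective g := by
    intro a b hab
    simp only [hg] at hab
    have h1 : (-1 + 2 * a / m : ℝ) = -1 + 2 * b / m := by exact_mod_cast hab
    have h2 : (2 * a / m : ℝ) = 2 * b / m := by linarith
    rw [div_left_inj' hm0.ne'] at h2
    exact_mod_cast (mul_left_cancel₀ two_ne_zero h2)
  set s : Finset ℂ := (Finset.range (m + 1)).image g with hs
  have hsc : s.card = m + 1 := by
    rw [hs, Finset.card_image_of_injective _ hgi, Finset.card_range]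
  have hsK : ↑s ⊆ K := by
    intro z hz
    simp only [hs, Finset.coe_image, Finset.coe_range, Set.mem_image, Set.mem_Iio] at hz
    obtain ⟨i, hi, rfl⟩ := hz
    apply hseg
    have h1 : (i : ℝ) ≤ m := by exact_mod_cast Nat.lt_succ_iff.1 hi
    have h2 : (0 : ℝ) ≤ 2 * i / m := by positivity
    have h3 : (2 * i / m : ℝ) ≤ 2 := by
      rw [div_le_iff₀ hm0]
      linarith
    rw [abs_le]
    constructor <;> linarith
  refine le_trans ?_ (le_dia hR hK (by omega) hsK hsc)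
  rw [le_geo_iff (by omega) hsc (by positivity)]
  have hdp : dp s = (2 / m : ℝ) ^ ((m + 1) * m) * An (m + 1) := by
    unfold dp An
    have h1 : s.offDiag = (Finset.range (m + 1)).offDiag.image (fun p => (g p.1, g p.2)) := by
      ext ⟨a, b⟩
      simp only [hs, Finset.mem_offDiag, Finset.mem_image, Finset.mem_range, Prod.mk.injEq,
        Prod.exists]
      constructor
      · rintro ⟨⟨i, hi, rfl⟩, ⟨j, hj, rfl⟩, hij⟩
        exact ⟨i, j, ⟨hi, hj, fun h => hij (by rw [h])⟩, rfl, rfl⟩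
      · rintro ⟨i, j, ⟨hi, hj, hij⟩, rfl, rfl⟩
        exact ⟨⟨i, hi, rfl⟩, ⟨j, hj, rfl⟩, fun h => hij (hgi h)⟩
    rw [h1, Finset.prod_image]
    · have h2 : ∀ p ∈ (Finset.range (m + 1)).offDiag, ‖g p.1 - g p.2‖ =
          (2 / m : ℝ) * |(p.1 : ℝ) - p.2| := by
        intro p _
        simp only [hg]
        rw [← Complex.ofReal_sub, Complex.norm_real, Real.norm_eq_abs,
          show (-1 + 2 * (p.1 : ℝ) / m) - (-1 + 2 * (p.2 : ℝ) / m) = 2 / m * ((p.1 : ℝ) - p.2) by ring,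
          abs_mul, abs_of_pos (by positivity : (0 : ℝ) < 2 / m)]
      rw [Finset.prod_congr rfl h2, Finset.prod_mul_distrib, Finset.prod_const, Finset.offDiag_card,
        Finset.card_range]
      congr 2
      rw [← Nat.mul_sub_one]
      simp
    · intro p _ q _ hpq
      simp only [Prod.mk.injEq] at hpq
      exact Prod.ext (hgi hpq.1) (hgi hpq.2)
  rw [hdp, Nat.add_sub_cancel]
  have h3 := An_lower m hm
  calc (2 * Real.exp (-(3 / 2))) ^ ((m + 1) * m)
      = (2 / m : ℝ) ^ ((m + 1) * m) *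
        (Real.exp (-(3 / 2 * ((m + 1 : ℝ) * m))) * (m : ℝ) ^ ((m + 1) * m)) := by
        rw [mul_pow, ← Real.exp_nat_mul, div_pow]
        have e : (((m + 1) * m : ℕ) : ℝ) * -(3 / 2) = -(3 / 2 * ((m + 1 : ℝ) * m)) := by
          push_cast
          ring
        rw [e]
        have hmp : (m : ℝ) ^ ((m + 1) * m) ≠ 0 := by positivity
        field_simp
    _ ≤ _ := mul_le_mul_of_nonneg_left h3 (by positivity)

end Pool.Agent.U380.GH
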