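import Mathlib

/-!
# Power series close to `exp (w ^ 2 / 2)` have no zeros in long thin rectangles
-/

set_option autoImplicit false

open Filter Topology

namespace Pool.Agent.U380.GH

/-- the coefficients of `exp (z ^ 2 / 2) = ∑ c n z ^ n / √n!` -/
noncomputable def cf (n : ℕ) : ℂ :=
  if Even n then ((√(n.factorial : ℝ) / (2 ^ (n / 2) * (n / 2).factorial) : ℝ) : ℂ) else 0

lemma norm_cf_le (n : ℕ) : ‖cf n‖ ≤ 1 := by
  unfold cf
  split_ifs with h
  · obtain ⟨k, rfl⟩ := h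
    have hk : (k + k) / 2 = k := by omega
    rw [hk, Complex.norm_real, Real.norm_of_nonneg (by positivity), div_le_one (by positivity)]
    have h1 : ((k + k).factorial : ℝ) ≤ (2 ^ k * (k.factorial : ℝ)) ^ 2 := by
      have h2 := Nat.choose_mul_factorial_mul_factorial (show k ≤ k + k by omega)
      have h3 := Nat.centralBinom_le_four_pow k
      rw [Nat.centralBinom_eq_two_mul_choose, two_mul] at h3
      rw [Nat.add_sub_cancel] at h2
      have h4 : (k + k).factorial ≤ 4 ^ k * k.factorial * k.factorial := by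
        rw [← h2]
        gcongr
      calc ((k + k).factorial : ℝ) ≤ ((4 ^ k * k.factorial * k.factorial : ℕ) : ℝ) := by
            exact_mod_cast h4
        _ = (2 ^ k * (k.factorial : ℝ)) ^ 2 := by
            push_cast
            rw [show (4 : ℝ) = 2 ^ 2 by norm_num, ← pow_mul]
            ring
    calc √((k + k).factorial : ℝ) ≤ √((2 ^ k * (k.factorial : ℝ)) ^ 2) := Real.sqrt_le_sqrt h1
      _ = 2 ^ k * (k.factorial : ℝ) := Real.sqrt_sq (by positivity)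
  · simp

lemma hasSum_cf (w : ℂ) : HasSum (fun n : ℕ => cf n * (w ^ n / (√(n.factorial : ℝ) : ℝ)))
    (Complex.exp (w ^ 2 / 2)) := by
  have hinj : Function.Injective fun k : ℕ => k + k := by
    intro a b hab
    simp only at hab
    omega
  rw [← hinj.hasSum_iff]
  · have h1 := NormedSpace.expSeries_div_hasSum_exp (w ^ 2 / 2 : ℂ)
    rw [← Complex.exp_eq_exp_ℂ] at h1
    refine h1.congr_fun ?_ |> fun h => h
    intro k
    simp only [Function.comp]
    unfold cf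
    have he : Even (k + k) := ⟨k, rfl⟩
    have hk : (k + k) / 2 = k := by omega
    rw [if_pos he, hk]
    have hs : (√((k + k).factorial : ℝ) : ℝ) ≠ 0 := by positivity
    have hs' : ((√((k + k).factorial : ℝ) : ℝ) : ℂ) ≠ 0 := by exact_mod_cast hs
    have hf : ((k.factorial : ℕ) : ℂ) ≠ 0 := by exact_mod_cast k.factorial_ne_zero
    push_cast
    rw [div_pow, ← pow_mul, ← two_mul]
    rw [← two_mul] at hs'
    field_simp
  · intro n hn
    unfold cf
    rw [if_neg, zero_mul]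
    intro he
    obtain ⟨k, hk⟩ := he
    exact hn ⟨k, hk.symm⟩

lemma pow_div_sqrt_le {x : ℝ} (hx : 0 ≤ x) (n : ℕ) :
    x ^ n / √(n.factorial : ℝ) ≤ Real.exp (x ^ 2 / 2) := by
  rw [← pow_le_pow_iff_left₀ (by positivity) (Real.exp_pos _).le two_ne_zero, div_pow,
    Real.sq_sqrt (by positivity), ← Real.exp_nat_mul, ← pow_mul, mul_comm n 2, pow_mul]
  have h := Real.pow_div_factorial_le_exp (x ^ 2) (by positivity) n
  have h1 : ((2 : ℕ) : ℝ) * (x ^ 2 / 2) = x ^ 2 := by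
    push_cast
    ring
  rw [h1]
  exact h

lemma pow_div_sqrt_le' {x : ℝ} (hx : 0 ≤ x) (n : ℕ) :
    x ^ n / √(n.factorial : ℝ) ≤ Real.exp (9 * x ^ 2 / 2) / 3 ^ n := by
  have h := pow_div_sqrt_le (x := 3 * x) (by positivity) n
  rw [le_div_iff₀ (by positivity)]
  calc x ^ n / √(n.factorial : ℝ) * 3 ^ n = (3 * x) ^ n / √(n.factorial : ℝ) := by
        rw [mul_pow]
        ring
    _ ≤ _ := h
    _ = _ := by
        congr 1
        ring

lemma growth (n : ℕ) : ((n : ℝ) + 2) / 3 ^ n ≤ 2 * (1 / 2) ^ n := by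
  have h := one_add_mul_le_pow (a := (1 / 2 : ℝ)) (by norm_num) n
  rw [div_le_iff₀ (by positivity)]
  calc (n : ℝ) + 2 = 2 * (1 + n * (1 / 2)) := by ring
    _ ≤ 2 * (1 + 1 / 2) ^ n := by linarith
    _ = 2 * (1 / 2) ^ n * 3 ^ n := by
        rw [mul_assoc, ← mul_pow]
        norm_num

/-- the two error terms -/
lemma error_bound {f b : ℕ → ℂ} {w : ℂ} {ε : ℝ} {N : ℕ} (hε : 0 ≤ ε)
    (hb : ∀ n, b n = w ^ n / (√(n.factorial : ℝ) : ℝ))
    (h1 : ∀ n < N, ‖f n - cf n‖ ≤ ε) (h2 : ∀ n, N ≤ n → ‖f n‖ ≤ n + 1) :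
    Summable (fun n => (f n - cf n) * b n) ∧
    ‖∑' n, (f n - cf n) * b n‖ ≤ N * (ε * Real.exp (‖w‖ ^ 2 / 2)) +
      4 * Real.exp (9 * ‖w‖ ^ 2 / 2) * (1 / 2) ^ N := by
  have hbn : ∀ n, ‖b n‖ = ‖w‖ ^ n / √(n.factorial : ℝ) := by
    intro n
    rw [hb, norm_div, norm_pow, Complex.norm_real, Real.norm_of_nonneg (Real.sqrt_nonneg _)]
  set C : ℝ := 2 * Real.exp (9 * ‖w‖ ^ 2 / 2) with hC
  have htail : ∀ i : ℕ, ‖(f (i + N) - cf (i + N)) * b (i + N)‖ ≤ C * (1 / 2) ^ N * (1 / 2) ^ i := by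
    intro i
    have h3 : ‖f (i + N) - cf (i + N)‖ ≤ ((i + N : ℕ) : ℝ) + 2 := by
      calc ‖f (i + N) - cf (i + N)‖ ≤ ‖f (i + N)‖ + ‖cf (i + N)‖ := norm_sub_le _ _
        _ ≤ (((i + N : ℕ) : ℝ) + 1) + 1 := add_le_add (h2 _ (by omega)) (norm_cf_le _)
        _ = _ := by ring
    rw [norm_mul, hbn]
    calc ‖f (i + N) - cf (i + N)‖ * (‖w‖ ^ (i + N) / √((i + N).factorial : ℝ))
        ≤ (((i + N : ℕ) : ℝ) + 2) * (Real.exp (9 * ‖w‖ ^ 2 / 2) / 3 ^ (i + N)) := by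
          apply mul_le_mul h3 (pow_div_sqrt_le' (norm_nonneg w) _) (by positivity) (by positivity)
      _ = Real.exp (9 * ‖w‖ ^ 2 / 2) * ((((i + N : ℕ) : ℝ) + 2) / 3 ^ (i + N)) := by ring
      _ ≤ Real.exp (9 * ‖w‖ ^ 2 / 2) * (2 * (1 / 2) ^ (i + N)) := by
          apply mul_le_mul_of_nonneg_left (growth _) (Real.exp_pos _).le
      _ = C * (1 / 2) ^ N * (1 / 2) ^ i := by
          rw [hC, pow_add]
          ring
  have hg : HasSum (fun i : ℕ => C * (1 / 2) ^ N * (1 / 2 : ℝ) ^ i) (C * (1 / 2) ^ N * 2) :=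
    hasSum_geometric_two.mul_left _
  have hs : Summable fun i : ℕ => (f (i + N) - cf (i + N)) * b (i + N) :=
    Summable.of_norm_bounded hg.summable htail
  have hs' : Summable (fun n => (f n - cf n) * b n) :=
    (summable_nat_add_iff (f := fun n => (f n - cf n) * b n) N).1 hs
  refine ⟨hs', ?_⟩
  rw [← hs'.sum_add_tsum_nat_add N]
  refine (norm_add_le _ _).trans (add_le_add ?_ ?_)
  · refine (norm_sum_le _ _).trans ?_
    have h4 : ∀ n ∈ Finset.range N, ‖(f n - cf n) * b n‖ ≤ ε * Real.exp (‖w‖ ^ 2 / 2) := by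
      intro n hn
      rw [norm_mul, hbn]
      exact mul_le_mul (h1 n (Finset.mem_range.1 hn)) (pow_div_sqrt_le (norm_nonneg w) n)
        (by positivity) hε
    refine (Finset.sum_le_sum h4).trans (le_of_eq ?_)
    rw [Finset.sum_const, Finset.card_range, nsmul_eq_mul]
  · refine (tsum_of_norm_bounded hg htail).trans (le_of_eq ?_)
    rw [hC]
    ring

/-- **No zeros in long thin rectangles.** -/
theorem no_zero {f : ℕ → ℂ} {w : ℂ} {δ r : ℝ} {N : ℕ} (hδ : 0 < δ) (hδ1 : δ ≤ 1 / 16) (hr : 2 ≤ r)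
    (hN : 8 * r ^ 2 ≤ N) (h1 : ∀ n < N, ‖f n - cf n‖ ≤ Real.exp (-(δ ^ 2 * r ^ 2)) / (4 * N))
    (h2 : ∀ n, N ≤ n → ‖f n‖ ≤ n + 1) (hx : |w.re| ≤ r) (hy : |w.im| ≤ δ * r) :
    ∑' n, f n * (w ^ n / (√(n.factorial : ℝ) : ℝ)) ≠ 0 := by
  have hN0 : (0 : ℝ) < N := by nlinarith
  obtain ⟨hs, hb⟩ := error_bound (f := f) (b := fun n => w ^ n / (√(n.factorial : ℝ) : ℝ)) (w := w)
    (ε := Real.exp (-(δ ^ 2 * r ^ 2)) / (4 * N)) (N := N) (by positivity) (fun _ => rfl) h1 h2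
  set x := w.re with hxdef
  set y := w.im with hydef
  have hS : ‖w‖ ^ 2 = x ^ 2 + y ^ 2 := by
    rw [Complex.sq_norm, Complex.normSq_apply]
    ring
  have hx2 : x ^ 2 ≤ r ^ 2 := by
    rw [← sq_abs]
    exact pow_le_pow_left₀ (abs_nonneg _) hx 2
  have hy2 : y ^ 2 ≤ δ ^ 2 * r ^ 2 := by
    rw [← sq_abs, ← mul_pow]
    exact pow_le_pow_left₀ (abs_nonneg _) hy 2
  have hδ2 : δ ^ 2 ≤ 1 / 256 := by nlinarith
  have hy3 : y ^ 2 ≤ r ^ 2 / 256 := by nlinarith [sq_nonneg r]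
  have hh : ‖Complex.exp (w ^ 2 / 2)‖ = Real.exp ((x ^ 2 - y ^ 2) / 2) := by
    rw [Complex.norm_exp]
    congr 1
    have : (w ^ 2 / 2).re = (x ^ 2 - y ^ 2) / 2 := by
      rw [show w ^ 2 / 2 = (w * w) * ((1 / 2 : ℝ) : ℂ) by push_cast; ring, Complex.mul_re,
        Complex.mul_re]
      simp
      ring
    exact this
  have hA : (N : ℝ) * (Real.exp (-(δ ^ 2 * r ^ 2)) / (4 * N) * Real.exp (‖w‖ ^ 2 / 2)) ≤
      1 / 4 * Real.exp ((x ^ 2 - y ^ 2) / 2) := by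
    have h3 : (N : ℝ) * (Real.exp (-(δ ^ 2 * r ^ 2)) / (4 * N) * Real.exp (‖w‖ ^ 2 / 2)) =
        1 / 4 * Real.exp (-(δ ^ 2 * r ^ 2) + ‖w‖ ^ 2 / 2) := by
      rw [Real.exp_add]
      field_simp
    rw [h3]
    apply mul_le_mul_of_nonneg_left _ (by norm_num)
    apply Real.exp_le_exp.2
    rw [hS]
    linarith
  have hB : 4 * Real.exp (9 * ‖w‖ ^ 2 / 2) * (1 / 2) ^ N ≤
      1 / 4 * Real.exp ((x ^ 2 - y ^ 2) / 2) := by
    have h4 : ((1 : ℝ) / 2) ^ N = Real.exp (-(N * Real.log 2)) := by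
      rw [← Real.log_pow, Real.exp_neg, Real.exp_log (by positivity), one_div, inv_pow]
    have h5 : (0.69 : ℝ) ≤ Real.log 2 := by
      have := Real.log_two_gt_d9
      linarith
    have h6 : 8 * r ^ 2 * 0.69 ≤ N * Real.log 2 := by
      apply mul_le_mul hN h5 (by norm_num) hN0.le
    have h7 : (16 : ℝ) ≤ Real.exp 4 := by
      have h8 : (2 : ℝ) ≤ Real.exp 1 := by
        have := Real.add_one_le_exp (1 : ℝ)
        linarith
      calc (16 : ℝ) = 2 ^ 4 := by norm_num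
        _ ≤ Real.exp 1 ^ 4 := pow_le_pow_left₀ (by norm_num) h8 4
        _ = Real.exp 4 := by
          rw [← Real.exp_nat_mul]
          norm_num
    have h9 : Real.exp (9 * ‖w‖ ^ 2 / 2) * (1 / 2) ^ N ≤
        Real.exp (-4) * Real.exp ((x ^ 2 - y ^ 2) / 2) := by
      rw [h4, ← Real.exp_add, ← Real.exp_add]
      apply Real.exp_le_exp.2
      rw [hS]
      nlinarith
    have h10 : Real.exp (-4) ≤ 1 / 16 := by
      rw [Real.exp_neg, ← one_div]
      exact one_div_le_one_div_of_le (by norm_num) h7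
    have h11 : 0 < Real.exp ((x ^ 2 - y ^ 2) / 2) := Real.exp_pos _
    calc 4 * Real.exp (9 * ‖w‖ ^ 2 / 2) * (1 / 2) ^ N
        = 4 * (Real.exp (9 * ‖w‖ ^ 2 / 2) * (1 / 2) ^ N) := by ring
      _ ≤ 4 * (Real.exp (-4) * Real.exp ((x ^ 2 - y ^ 2) / 2)) := by linarith
      _ ≤ 4 * (1 / 16 * Real.exp ((x ^ 2 - y ^ 2) / 2)) := by
          have := mul_le_mul_of_nonneg_right h10 h11.le
          linarith
      _ = _ := by ring
  have hlt : ‖∑' n, (f n - cf n) * (w ^ n / (√(n.factorial : ℝ) : ℝ))‖ <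
      ‖Complex.exp (w ^ 2 / 2)‖ := by
    rw [hh]
    have : 0 < Real.exp ((x ^ 2 - y ^ 2) / 2) := Real.exp_pos _
    linarith
  have hsum : ∑' n, f n * (w ^ n / (√(n.factorial : ℝ) : ℝ)) =
      (∑' n, (f n - cf n) * (w ^ n / (√(n.factorial : ℝ) : ℝ))) + Complex.exp (w ^ 2 / 2) := by
    rw [← (hasSum_cf w).tsum_eq, ← hs.tsum_add (hasSum_cf w).summable]
    refine tsum_congr fun n => ?_
    ring
  rw [hsum]
  intro h0
  have h12 : ∑' n, (f n - cf n) * (w ^ n / (√(n.factorial : ℝ) : ℝ)) =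
      -Complex.exp (w ^ 2 / 2) := by
    exact eq_neg_of_add_eq_zero_left h0
  rw [h12, norm_neg] at hlt
  exact lt_irrefl _ hlt

end Pool.Agent.U380.GH
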