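import Mathlib

/-!
# Independent standard complex Gaussian variables: lower bounds for probabilities
-/

set_option autoImplicit false

open MeasureTheory ProbabilityTheory Filter Topology

namespace Pool.Agent.U380.GH

/-- The standard complex Gaussian distribution: density `(1/π) exp (-|w|²)`. -/
noncomputable def gauss : Measure ℂ :=
  (volume : Measure ℂ).withDensity fun w => ENNReal.ofReal (Real.exp (-‖w‖ ^ 2) / Real.pi)

lemma integral_gauss : ∫ w : ℂ, Real.exp (-‖w‖ ^ 2) = Real.pi := by
  have h := Complex.integral_rpow_mul_exp_neg_rpow (p := 2) (q := 0) (by norm_num) (by norm_num)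
  simp only [Real.rpow_zero, one_mul, zero_add, Real.rpow_two] at h
  rw [h, div_self (by norm_num : (2 : ℝ) ≠ 0), Real.Gamma_one]
  ring

lemma integral_gauss_sq : ∫ w : ℂ, ‖w‖ ^ 2 * Real.exp (-‖w‖ ^ 2) = Real.pi := by
  have h := Complex.integral_rpow_mul_exp_neg_rpow (p := 2) (q := 2) (by norm_num) (by norm_num)
  simp only [Real.rpow_two] at h
  rw [h, show ((2 : ℝ) + 2) / 2 = 1 + 1 by norm_num, Real.Gamma_add_one one_ne_zero, Real.Gamma_one]
  ring

lemma integrable_gauss : Integrable (fun w : ℂ => Real.exp (-‖w‖ ^ 2)) := by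
  by_contra h
  have h1 := integral_undef h
  rw [integral_gauss] at h1
  exact Real.pi_ne_zero h1

lemma integrable_gauss_sq : Integrable (fun w : ℂ => ‖w‖ ^ 2 * Real.exp (-‖w‖ ^ 2)) := by
  by_contra h
  have h1 := integral_undef h
  rw [integral_gauss_sq] at h1
  exact Real.pi_ne_zero h1

instance : IsProbabilityMeasure gauss := by
  constructor
  rw [gauss, withDensity_apply _ MeasurableSet.univ, Measure.restrict_univ,
    ← ofReal_integral_eq_lintegral_ofReal (integrable_gauss.div_const _)
      (Eventually.of_forall fun w => by positivity), integral_div, integral_gauss,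
    div_self Real.pi_ne_zero, ENNReal.ofReal_one]

/-- Chebyshev -/
lemma gauss_tail {t : ℝ} (ht : 0 < t) : gauss.real {w | t < ‖w‖} ≤ 1 / t ^ 2 := by
  have hm : MeasurableSet {w : ℂ | t < ‖w‖} := measurableSet_lt measurable_const measurable_norm
  have h1 : gauss {w | t < ‖w‖} ≤ ENNReal.ofReal (1 / t ^ 2) := by
    rw [gauss, withDensity_apply _ hm]
    calc ∫⁻ w in {w : ℂ | t < ‖w‖}, ENNReal.ofReal (Real.exp (-‖w‖ ^ 2) / Real.pi)
        ≤ ∫⁻ w in {w : ℂ | t < ‖w‖}, ENNReal.ofReal (‖w‖ ^ 2 * Real.exp (-‖w‖ ^ 2) / (t ^ 2 * Real.pi)) := by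
          refine setLIntegral_mono' hm fun w hw => ?_
          have hw' : t < ‖w‖ := hw
          apply ENNReal.ofReal_le_ofReal
          rw [div_le_div_iff₀ Real.pi_pos (by positivity)]
          have h2 : t ^ 2 ≤ ‖w‖ ^ 2 := by
            apply pow_le_pow_left₀ ht.le hw'.le
          have h3 : 0 < Real.exp (-‖w‖ ^ 2) * Real.pi := by positivity
          nlinarith [mul_le_mul_of_nonneg_right h2 h3.le]
      _ ≤ ∫⁻ w : ℂ, ENNReal.ofReal (‖w‖ ^ 2 * Real.exp (-‖w‖ ^ 2) / (t ^ 2 * Real.pi)) :=
          setLIntegral_le_lintegral _ _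
      _ = ENNReal.ofReal (1 / t ^ 2) := by
          rw [← ofReal_integral_eq_lintegral_ofReal (integrable_gauss_sq.div_const _)
            (Eventually.of_forall fun w => by positivity), integral_div, integral_gauss_sq]
          congr 1
          field_simp
  have h2 := ENNReal.toReal_mono ENNReal.ofReal_ne_top h1
  rwa [ENNReal.toReal_ofReal (by positivity)] at h2

/-- small balls -/
lemma gauss_ball (a : ℂ) {ε : ℝ} (hε : 0 ≤ ε) :
    ε ^ 2 * Real.exp (-(‖a‖ + ε) ^ 2) ≤ gauss.real {w | ‖w - a‖ ≤ ε} := by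
  have he : {w : ℂ | ‖w - a‖ ≤ ε} = Metric.closedBall a ε := by
    ext w
    simp [Metric.mem_closedBall, dist_eq_norm]
  have h1 : ENNReal.ofReal (ε ^ 2 * Real.exp (-(‖a‖ + ε) ^ 2)) ≤ gauss {w | ‖w - a‖ ≤ ε} := by
    rw [he, gauss, withDensity_apply _ measurableSet_closedBall]
    calc ENNReal.ofReal (ε ^ 2 * Real.exp (-(‖a‖ + ε) ^ 2))
        = ENNReal.ofReal (Real.exp (-(‖a‖ + ε) ^ 2) / Real.pi) * volume (Metric.closedBall a ε) := by
          rw [Complex.volume_closedBall]
          have : (NNReal.pi : ENNReal) = ENNReal.ofReal Real.pi := by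
            rw [← NNReal.coe_real_pi, ENNReal.ofReal_coe_nnreal]
          rw [this, ← ENNReal.ofReal_pow hε, ← ENNReal.ofReal_mul (by positivity),
            ← ENNReal.ofReal_mul (by positivity)]
          congr 1
          field_simp
      _ = ∫⁻ _ in Metric.closedBall a ε, ENNReal.ofReal (Real.exp (-(‖a‖ + ε) ^ 2) / Real.pi) := by
          rw [setLIntegral_const]
      _ ≤ ∫⁻ w in Metric.closedBall a ε, ENNReal.ofReal (Real.exp (-‖w‖ ^ 2) / Real.pi) := by
          refine setLIntegral_mono' measurableSet_closedBall fun w hw => ?_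
          apply ENNReal.ofReal_le_ofReal
          apply div_le_div_of_nonneg_right _ Real.pi_pos.le
          apply Real.exp_le_exp.2
          rw [neg_le_neg_iff]
          have hw' : ‖w‖ ≤ ‖a‖ + ε := by
            have h3 : ‖w - a‖ ≤ ε := by simpa [Metric.mem_closedBall, dist_eq_norm] using hw
            calc ‖w‖ = ‖a + (w - a)‖ := by ring_nf
              _ ≤ ‖a‖ + ‖w - a‖ := norm_add_le _ _
              _ ≤ _ := by linarith
          exact pow_le_pow_left₀ (norm_nonneg _) hw' 2
  have h2 := ENNReal.toReal_mono (measure_ne_top _ _) h1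
  rwa [ENNReal.toReal_ofReal (by positivity)] at h2

/-- `ξ_0, ξ_1, ...` are independent standard complex Gaussian random variables. -/
structure IsGaussianSequence {Ω : Type*} [MeasurableSpace Ω] (μ : Measure Ω) (ξ : ℕ → Ω → ℂ) :
    Prop where
  measurable : ∀ n, Measurable (ξ n)
  indep : iIndepFun ξ μ
  law : ∀ n, μ.map (ξ n) = gauss

lemma tail_prod (N : ℕ) (hN : 1 ≤ N) (M : ℕ) (hM : N ≤ M) :
    1 / 2 * ((M : ℝ) + 1) / M ≤ ∏ n ∈ Finset.Ico N M, (1 - 1 / ((n : ℝ) + 1) ^ 2) := by
  induction M, hM using Nat.le_induction with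
  | base =>
    have : (1 : ℝ) ≤ N := by exact_mod_cast hN
    rw [Finset.Ico_self, Finset.prod_empty, div_le_one (by positivity)]
    linarith
  | succ M hM ih =>
    have hM1 : (1 : ℝ) ≤ M := by exact_mod_cast hN.trans hM
    rw [Finset.prod_Ico_succ_top hM]
    have h1 : 0 ≤ 1 - 1 / ((M : ℝ) + 1) ^ 2 := by
      rw [sub_nonneg, div_le_one (by positivity)]
      nlinarith
    refine le_trans (le_of_eq ?_) (mul_le_mul_of_nonneg_right ih h1)
    push_cast
    field_simp
    ring

/-- The probability of independent events for the first `N` variables together with the growth condition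
`|ξ_n| ≤ n + 1` for `n ≥ N`. -/
theorem prob_event {Ω : Type*} [MeasurableSpace Ω] {μ : Measure Ω} [IsProbabilityMeasure μ]
    {ξ : ℕ → Ω → ℂ} (h : IsGaussianSequence μ ξ) (N : ℕ) (hN : 1 ≤ N) (B : ℕ → Set ℂ)
    (hB : ∀ n, MeasurableSet (B n)) (q : ℝ) (hq : 0 ≤ q) (hBq : ∀ n < N, q ≤ gauss.real (B n)) :
    q ^ N / 2 ≤ μ.real {ω | (∀ n < N, ξ n ω ∈ B n) ∧ ∀ n, N ≤ n → ‖ξ n ω‖ ≤ n + 1} := by
  classical
  set C : ℕ → Set ℂ := fun n => if n < N then B n else {w | ‖w‖ ≤ n + 1} with hC
  have hCm : ∀ n, MeasurableSet (C n) := by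
    intro n
    simp only [hC]
    split_ifs
    · exact hB n
    · exact measurableSet_le measurable_norm measurable_const
  have hset : {ω | (∀ n < N, ξ n ω ∈ B n) ∧ ∀ n, N ≤ n → ‖ξ n ω‖ ≤ n + 1} =
      ⋂ M : ℕ, ⋂ n ∈ Finset.range M, ξ n ⁻¹' C n := by
    ext ω
    simp only [Set.mem_ofPred_eq, Set.mem_iInter, Finset.mem_range, Set.mem_preimage]
    constructor
    · rintro ⟨h1, h2⟩ M n _
      by_cases hn : n < N
      · simpa [hC, hn] using h1 n hn
      · simpa [hC, hn] using h2 n (not_lt.1 hn)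
    · intro h1
      refine ⟨fun n hn => ?_, fun n hn => ?_⟩
      · simpa [hC, hn] using h1 (n + 1) n (Nat.lt_succ_self n)
      · simpa [hC, not_lt.2 hn] using h1 (n + 1) n (Nat.lt_succ_self n)
  have hfin : ∀ M : ℕ, N ≤ M → q ^ N / 2 ≤ μ.real (⋂ n ∈ Finset.range M, ξ n ⁻¹' C n) := by
    intro M hM
    have h1 := h.indep.measure_inter_preimage_eq_mul (Finset.range M) (sets := C)
      (fun n _ => hCm n)
    have h2 : ∀ n, μ.real (ξ n ⁻¹' C n) = gauss.real (C n) := by
      intro n
      rw [measureReal_def, measureReal_def, ← h.law n, Measure.map_apply (h.measurable n) (hCm n)]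
    have h3 : μ.real (⋂ n ∈ Finset.range M, ξ n ⁻¹' C n) = ∏ n ∈ Finset.range M, gauss.real (C n) := by
      rw [measureReal_def, h1, ENNReal.toReal_prod]
      exact Finset.prod_congr rfl fun n _ => h2 n
    rw [h3, ← Finset.prod_range_mul_prod_Ico _ hM]
    have h4 : q ^ N ≤ ∏ n ∈ Finset.range N, gauss.real (C n) := by
      rw [← Finset.card_range N, ← Finset.prod_const, Finset.card_range]
      refine Finset.prod_le_prod (fun _ _ => hq) fun n hn => ?_
      have hn' := Finset.mem_range.1 hn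
      simpa [hC, hn'] using hBq n hn'
    have h5 : (1 : ℝ) / 2 ≤ ∏ n ∈ Finset.Ico N M, gauss.real (C n) := by
      have hM1 : (1 : ℝ) ≤ M := by exact_mod_cast hN.trans hM
      have h6 := tail_prod N hN M hM
      have h7 : (1 : ℝ) / 2 ≤ 1 / 2 * ((M : ℝ) + 1) / M := by
        rw [le_div_iff₀ (by positivity)]
        linarith
      refine h7.trans (h6.trans ?_)
      refine Finset.prod_le_prod (fun n hn => ?_) fun n hn => ?_
      · rw [sub_nonneg, div_le_one (by positivity)]
        nlinarith [Nat.cast_nonneg (α := ℝ) n]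
      · have hn' := (Finset.mem_Ico.1 hn).1
        have h8 : C n = {w : ℂ | (n : ℝ) + 1 < ‖w‖}ᶜ := by
          simp only [hC, not_lt.2 hn', if_false]
          ext w
          simp
        rw [h8, probReal_compl_eq_one_sub (measurableSet_lt measurable_const measurable_norm)]
        have h9 := gauss_tail (t := (n : ℝ) + 1) (by positivity)
        linarith
    calc q ^ N / 2 = q ^ N * (1 / 2) := by ring
      _ ≤ _ := mul_le_mul h4 h5 (by norm_num) (Finset.prod_nonneg fun _ _ => measureReal_nonneg)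
  rw [hset]
  have hanti : Antitone fun M : ℕ => ⋂ n ∈ Finset.range M, ξ n ⁻¹' C n := by
    intro M M' hMM
    apply Set.biInter_subset_biInter_left
    intro n hn
    simp only [Finset.coe_range, Set.mem_Iio] at hn ⊢
    omega
  have hlim := tendsto_measure_iInter_atTop (μ := μ)
    (s := fun M : ℕ => ⋂ n ∈ Finset.range M, ξ n ⁻¹' C n)
    (fun M => (Finset.measurableSet_biInter _ fun n _ => h.measurable n (hCm n)).nullMeasurableSet)
    hanti ⟨0, measure_ne_top _ _⟩
  have hlim' := (ENNReal.tendsto_toReal (measure_ne_top μ _)).comp hlim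
  refine ge_of_tendsto hlim' ?_
  filter_upwards [eventually_ge_atTop N] with M hM
  exact hfin M hM

end Pool.Agent.U380.GH
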